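import Pool.Agent.Helper1.KA.Stmts2
import Pool.Agent.Helper1.KA.GeneralB
import Pool.Agent.Helper31.KL.Comb

set_option autoImplicit false

/-!
Project KA (MP_0b9e0b_ag), module KA-14c: the reduction of all classes of good points.
-/

namespace Pool.Agent.Helper31.KA

open Pool.Agent.Helper16 Pool.Agent.Helper1.KA
open Pool.Agent.Helper1.KL (Var VarF Key key fld spec cyc relations rat CH coef Idx)
open Pool.Agent.Helper1.KL (aff xc yc tr ec red xpt perp Prp ratf Vert Con At0 Quo cls IT RT)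
open Pool.Agent.Helper31.KL (fourier mem_perp tr_tr)
open Pool.Agent.Helper67.KL (charP_of cast_pow')

section

variable {k : Type} [Field k] {p a : ℕ} [Fact p.Prime] [CharP k p] {n : ℕ} {c : Fin n → k}
  {r : ℕ} {I : Finset (Fin n)} {N : Type} [Field N] [Algebra (RatFunc k) N]
  {z : Fin n ⊕ Fin n → Option N}

theorem XV_tr (h : Fin n → ZMod p) (hz : XV p a c N z) : XV p a c N (tr h z) := by
  have : CharP N p := charP_of k N p
  intro i
  rcases hz i with ⟨h1, h2⟩ | ⟨u, w, h1, h2, h3⟩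
  · left
    exact ⟨h1, by simp only [tr, h2, Option.map_none]⟩
  · right
    refine ⟨u, w + (h i).cast, h1, ?_, ?_⟩
    · simp only [tr, h2, Option.map_some]
    · rw [add_pow_char, cast_pow', ← h3]
      ring

omit [CharP k p] in
/-- The translations by vectors which are `0` on `I`. -/
theorem tr_eq_self (hz : Good p a c r I z) {h : Fin n → ZMod p} (hh : ∀ i ∈ I, h i = 0) :
    tr h z = z := by
  funext j
  rcases j with i | i
  · rfl
  · by_cases hi : i ∈ I
    · simp only [tr, hh i hi, ZMod.cast_zero, add_zero]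
      exact Option.map_id'
    · simp only [tr, (hz.of_notMem hi).2.1, Option.map_none]

omit [CharP k p] in
/-- The class of a good point. -/
theorem cl_mem (hz : Good p a c r I z) :
    cl p a c r z ∈ Submodule.span ℚ {SS p a c r 0 z} ⊔
      ⨆ (ρ : Fin n → ZMod p) (_ : ρ ≠ 0) (_ : ∀ i ∉ I, ρ i = 0),
        Submodule.span ℚ {SS p a c r ρ z} := by
  have h0 : tr (0 : Fin n → ZMod p) z = z := tr_eq_self hz fun _ _ => rfl
  have h1 := fourier (p := p) I (fun h => cl p a c r (tr h z)) (fun h hh => by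
    rw [tr_eq_self hz hh, h0])
  simp only [h0] at h1
  exact h1

/-- The case of invariance. -/
theorem SS_mem_of_inv {ρ : Fin n → ZMod p}
    (h : ∀ g : Fin n → ZMod p, SS p a c r ρ z = SS p a c r ρ (tr g z)) :
    SS p a c r ρ z ∈ Submodule.span ℚ {SS p a c r 0 z} := by
  have hN : CharP N p := charP_of k N p
  have h1 : ∑ g : Fin n → ZMod p, SS p a c r ρ (tr g z) =
      ((perp ρ).card : ℚ) • SS p a c r 0 z := by
    unfold SS SH
    rw [Finset.sum_comm]
    have h2 : ∀ g' ∈ perp ρ, ∑ g : Fin n → ZMod p, cl p a c r (tr g' (tr g z)) =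
        ∑ h ∈ perp (0 : Fin n → ZMod p), cl p a c r (tr h z) := by
      intro g' _
      have h3 : perp (0 : Fin n → ZMod p) = Finset.univ := by
        ext h
        simp [mem_perp]
      rw [h3]
      have h4 : ∀ g ∈ (Finset.univ : Finset (Fin n → ZMod p)),
          cl p a c r (tr g' (tr g z)) = cl p a c r (tr (g' + g) z) := fun g _ => by
        rw [tr_tr g' g z]
      rw [Finset.sum_congr rfl h4]
      exact Fintype.sum_equiv (Equiv.addLeft g') _ _ fun g => rfl
    rw [Finset.sum_congr rfl h2, Finset.sum_const, ← Nat.cast_smul_eq_nsmul ℚ]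
  have h2 : ∑ g : Fin n → ZMod p, SS p a c r ρ (tr g z) =
      ((Fintype.card (Fin n → ZMod p)) : ℚ) • SS p a c r ρ z := by
    rw [Finset.sum_congr rfl fun g _ => (h g).symm, Finset.sum_const, Finset.card_univ,
      ← Nat.cast_smul_eq_nsmul ℚ]
  rw [h1] at h2
  have h3 : ((Fintype.card (Fin n → ZMod p) : ℕ) : ℚ) ≠ 0 :=
    Nat.cast_ne_zero.2 Fintype.card_ne_zero
  rw [← Submodule.smul_mem_iff _ h3, ← h2]
  exact Submodule.smul_mem _ _ (Submodule.mem_span_singleton_self _)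

end

variable {k : Type} [Field k] {p a : ℕ} [Fact p.Prime] [CharP k p] {n : ℕ} {c : Fin n → k}
  {r : ℕ}

/-- KA-14c. -/
theorem modComb (hV : ModV k p a c r) (hA1 : ModA1 k p a c r) (hA2 : ModA2 k p a c r)
    (hSc : ModSc k p a c r) (hS : ModS k p a c r) (hE : ModE k p a c r) :
    ModComb k p a c r := by
  intro I
  set R : Submodule ℚ (QX p a c r) :=
    GG p a c r I.card ⊔ SP p a c r I 0 (fun _ _ _ _ _ => True) ⊔
      ⨆ (ρ : Fin n → ZMod p) (_ : ρ ≠ 0) (_ : ∀ i ∉ I, ρ i = 0),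
        SP p a c r I ρ (P1 k p a c r ρ)
    with hR
  have hRG : GG p a c r I.card ≤ R := le_sup_left.trans le_sup_left
  -- the sums over all translations
  have hR0 : ∀ (N : Type) [Field N] [Algebra k N] [Algebra (RatFunc k) N]
      [IsScalarTower k (RatFunc k) N] (z : Fin n ⊕ Fin n → Option N), Good p a c r I z →
      Submodule.span ℚ {SS p a c r 0 z} ≤ R := by
    intro N _ _ _ _ z hz
    refine le_trans ?_ (le_sup_right.trans le_sup_left)
    refine Submodule.span_mono ?_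
    rw [Set.singleton_subset_iff]
    exact ⟨N, _, _, _, inferInstance, z, hz, trivial, rfl⟩
  have hR1 : ∀ ρ : Fin n → ZMod p, ρ ≠ 0 → (∀ i ∉ I, ρ i = 0) →
      SP p a c r I ρ (P1 k p a c r ρ) ≤ R := by
    intro ρ h1 h2
    refine le_trans ?_ le_sup_right
    exact le_iSup_of_le ρ (le_iSup_of_le h1 (le_iSup_of_le h2 le_rfl))
  -- invariance
  have hInv : ∀ (N : Type) [Field N] [Algebra k N] [Algebra (RatFunc k) N]
      [IsScalarTower k (RatFunc k) N] (z : Fin n ⊕ Fin n → Option N) (ρ : Fin n → ZMod p),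
      Good p a c r I z →
      (∀ h : Fin n → ZMod p, key (RatFunc k) (red ρ z) = key (RatFunc k) (red ρ (tr h z))) →
      SS p a c r ρ z ∈ R := by
    intro N _ _ _ _ z ρ hz hh
    refine hR0 N z hz (SS_mem_of_inv fun g => ?_)
    exact (hS N N z (tr g z) ρ hz.mem (XV_tr g hz.mem) (hh g)).1
  -- vertical points with `X = B = 0`
  have hE' : ∀ (N : Type) [Field N] [Algebra k N] [Algebra (RatFunc k) N]
      [IsScalarTower k (RatFunc k) N] (z : Fin n ⊕ Fin n → Option N) (ρ : Fin n → ZMod p),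
      Good p a c r I z → (∀ i ∉ I, ρ i = 0) → ρ ≠ 0 → Vert k r z → Xc a c ρ z = 0 →
      Bc ρ z = 0 → SS p a c r ρ z ∈ R := by
    intro N _ _ _ _ z ρ hz hρ hρ0 h1 h2 h3
    refine (sup_le (hR0 N z hz) ?_) (hE N I z ρ hz hρ hρ0 h1 h2 h3)
    refine iSup_le fun d => iSup_le fun hd => hR1 _ (smul_ne_zero hd hρ0) fun i hi => ?_
    rw [Pi.smul_apply, hρ i hi, smul_zero]
  -- points with `X = B = 0`
  have hXB : ∀ (N : Type) [Field N] [Algebra k N] [Algebra (RatFunc k) N]
      [IsScalarTower k (RatFunc k) N] (z : Fin n ⊕ Fin n → Option N) (ρ : Fin n → ZMod p),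
      Good p a c r I z → (∀ i ∉ I, ρ i = 0) → ρ ≠ 0 → Xc a c ρ z = 0 → Bc ρ z = 0 →
      SS p a c r ρ z ∈ R := by
    intro N _ _ _ _ z ρ hz hρ hρ0 h2 h3
    refine (sup_le hRG ?_) ((hV N I z ρ hz hρ hρ0).2 h2 h3)
    unfold SP
    rw [Submodule.span_le]
    rintro _ ⟨N', _, _, _, _, z', hz', ⟨h4, h5, h6⟩, rfl⟩
    exact hE' N' z' ρ hz' hρ hρ0 h4 h5 h6
  -- points with `X = 0`
  have hX : ∀ (N : Type) [Field N] [Algebra k N] [Algebra (RatFunc k) N]
      [IsScalarTower k (RatFunc k) N] (z : Fin n ⊕ Fin n → Option N) (ρ : Fin n → ZMod p),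
      Good p a c r I z → (∀ i ∉ I, ρ i = 0) → ρ ≠ 0 → Xc a c ρ z = 0 →
      SS p a c r ρ z ∈ R := by
    intro N _ _ _ _ z ρ hz hρ hρ0 h2
    by_cases h3 : Bc ρ z = 0
    · exact hXB N z ρ hz hρ hρ0 h2 h3
    · refine (sup_le hRG ?_) (hSc N I z ρ hz hρ hρ0 h2 h3)
      unfold SP
      rw [Submodule.span_le]
      rintro _ ⟨N', _, _, _, _, z', hz', ⟨h4, h5⟩, rfl⟩
      by_cases h6 : Bc ρ z' = 0
      · exact hXB N' z' ρ hz' hρ hρ0 h4 h6
      · have h7 := h5.resolve_left h6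
        exact hInv N' z' ρ hz' (hA2 N' I z' ρ hz' hρ h7 h4 h6)
  -- all points
  have hall : ∀ (N : Type) [Field N] [Algebra k N] [Algebra (RatFunc k) N]
      [IsScalarTower k (RatFunc k) N] (z : Fin n ⊕ Fin n → Option N) (ρ : Fin n → ZMod p),
      Good p a c r I z → (∀ i ∉ I, ρ i = 0) → ρ ≠ 0 → SS p a c r ρ z ∈ R := by
    intro N _ _ _ _ z ρ hz hρ hρ0
    refine (sup_le hRG ?_) (hV N I z ρ hz hρ hρ0).1
    unfold SP
    rw [Submodule.span_le]
    rintro _ ⟨N', _, _, _, _, z', hz', h4, rfl⟩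
    by_cases h5 : Xc a c ρ z' = 0
    · exact hX N' z' ρ hz' hρ hρ0 h5
    · exact hInv N' z' ρ hz' (hA1 N' I z' ρ hz' hρ h4 h5)
  unfold GI
  rw [Submodule.span_le]
  rintro _ ⟨N, _, _, _, _, z, hz, rfl⟩
  refine (sup_le (hR0 N z hz) ?_) (cl_mem hz)
  refine iSup_le fun ρ => iSup_le fun hρ0 => iSup_le fun hρ => ?_
  rw [Submodule.span_le, Set.singleton_subset_iff]
  exact hall N z ρ hz hρ hρ0

end Pool.Agent.Helper31.KA
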